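import Pool.Agent.H98.KS.Targets3

/-! KC: `KF` is a convolution (board ks_modules, MP_ff41bc_an). -/

set_option autoImplicit false

open scoped BigOperators

noncomputable section

namespace Pool.Agent.H3.KS

open Pool.Agent.H98.KS

theorem ee_add (x y : ℝ) : ee (x + y) = ee x * ee y := by
  unfold ee
  rw [← Complex.exp_add]
  congr 1
  push_cast
  ring

theorem ee_zero : ee 0 = 1 := by
  unfold ee
  simp

theorem ee_sum {ι : Type*} (s : Finset ι) (f : ι → ℝ) : ee (∑ i ∈ s, f i) = ∏ i ∈ s, ee (f i) := by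
  classical
  induction s using Finset.induction_on with
  | empty => simp [ee_zero]
  | insert a s ha ih => rw [Finset.sum_insert ha, Finset.prod_insert ha, ee_add, ih]

theorem ks_KC : T_KC := by
  intro k d X F θ x
  classical
  unfold KF conv
  have h1 : ∀ y ∈ bx d (-(X : ℤ)) X, (∏ i, ee (θ * (((y i).natAbs ^ k : ℕ) : ℝ))) *
      (Set.indicator (F : Set (Fin d → ℤ)) (fun _ => (1 : ℂ))) (x - y) =
      if x - y ∈ F then ee (θ * (pw k y : ℝ)) else 0 := by
    intro y _
    by_cases h : x - y ∈ F
    · rw [if_pos h, Set.indicator_of_mem (by exact h), mul_one, ← ee_sum]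
      congr 1
      unfold pw
      push_cast
      rw [Finset.mul_sum]
    · rw [if_neg h, Set.indicator_of_notMem (by exact h), mul_zero]
  rw [Finset.sum_congr rfl h1, ← Finset.sum_filter]
  refine Finset.sum_nbij' (fun y => x - y) (fun y => x - y) ?_ ?_ ?_ ?_ ?_
  · intro y hy
    rw [Finset.mem_filter] at hy ⊢
    refine ⟨?_, by rw [sub_sub_cancel]; exact hy.1⟩
    unfold bx
    rw [Fintype.mem_piFinset]
    intro i
    rw [Finset.mem_Icc]
    have h2 := abs_le.1 (hy.2 i)
    simpa using h2
  · intro y hy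
    rw [Finset.mem_filter] at hy ⊢
    refine ⟨hy.2, fun i => ?_⟩
    have h2 := hy.1
    unfold bx at h2
    rw [Fintype.mem_piFinset] at h2
    have h3 := Finset.mem_Icc.1 (h2 i)
    rw [Pi.sub_apply, sub_sub_cancel]
    exact abs_le.2 h3
  · intro y _
    simp
  · intro y _
    simp
  · intro y _
    rfl

end Pool.Agent.H3.KS
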