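import Pool.Agent.H98.KS.Targets3

/-! MIN: minor arcs (board ks_modules, MP_ff41bc_an). -/

set_option autoImplicit false

open scoped BigOperators

noncomputable section

namespace Pool.Agent.H3.KS

open Pool.Agent.H98.KS

theorem norm_ee (x : ℝ) : ‖ee x‖ = 1 := by
  unfold ee
  have h1 : (2 * Real.pi * x * Complex.I : ℂ) = ((2 * Real.pi * x : ℝ) : ℂ) * Complex.I := by
    push_cast; ring
  rw [h1, Complex.norm_exp_ofReal_mul_I]

theorem norm_Ss_le (k X : ℕ) (θ ξ : ℝ) : ‖Ss k X θ ξ‖ ≤ 2 * X + 1 := by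
  unfold Ss
  refine (norm_sum_le _ _).trans ?_
  simp only [norm_ee, Finset.sum_const, nsmul_eq_mul, mul_one]
  rw [Int.card_Icc]
  have h1 : ((X : ℤ) + 1 - -(X : ℤ)).toNat = 2 * X + 1 := by omega
  rw [h1]
  push_cast
  exact le_rfl

/-- the polynomial `θ X^k - ξ X` -/
def PP (k : ℕ) (θ ξ : ℝ) : Polynomial ℝ :=
  Polynomial.C θ * Polynomial.X ^ k - Polynomial.C ξ * Polynomial.X

theorem PP_deg (k : ℕ) (hk : 3 ≤ k) (θ ξ : ℝ) : (PP k θ ξ).natDegree ≤ k := by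
  unfold PP
  refine (Polynomial.natDegree_sub_le _ _).trans (max_le ?_ ?_)
  · exact Polynomial.natDegree_C_mul_X_pow_le _ _
  · refine (Polynomial.natDegree_C_mul_le _ _).trans ?_
    rw [Polynomial.natDegree_X]
    omega

theorem PP_coeff (k : ℕ) (hk : 3 ≤ k) (θ ξ : ℝ) : (PP k θ ξ).coeff k = θ := by
  unfold PP
  rw [Polynomial.coeff_sub, Polynomial.coeff_C_mul, Polynomial.coeff_C_mul,
    Polynomial.coeff_X_pow_self, Polynomial.coeff_X, if_neg (by omega)]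
  ring

theorem Hs_eq (k X : ℕ) (θ ξ : ℝ) :
    Hs k X θ ξ = ∑ x ∈ Finset.range X, ee ((PP k θ ξ).eval (((1 : ℤ) : ℝ) + x)) := by
  unfold Hs PP
  refine Finset.sum_nbij' (fun n => n - 1) (fun x => x + 1) ?_ ?_ ?_ ?_ ?_
  · intro n hn
    rw [Finset.mem_Icc] at hn
    rw [Finset.mem_range]
    omega
  · intro n hn
    rw [Finset.mem_range] at hn
    rw [Finset.mem_Icc]
    omega
  · intro n hn
    rw [Finset.mem_Icc] at hn
    exact Nat.sub_add_cancel hn.1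
  · intro n _
    exact Nat.add_sub_cancel n 1
  · intro n hn
    rw [Finset.mem_Icc] at hn
    have h1 : ((n - 1 : ℕ) : ℝ) = n - 1 := by
      rw [Nat.cast_sub hn.1, Nat.cast_one]
    rw [h1]
    congr 1
    simp only [Polynomial.eval_sub, Polynomial.eval_mul, Polynomial.eval_C, Polynomial.eval_pow,
      Polynomial.eval_X, Int.cast_one]
    rw [add_sub_cancel]
    ring

/-- a large exponential sum gives a rational approximation, against the minor arc condition -/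
theorem key (k A : ℕ) (hk : 3 ≤ k) (hW : Weyl k A) (X : ℕ) (θ ξ : ℝ) (hX : 1 ≤ X)
    (hX0 : ((A : ℝ) * k.factorial) ^ 40 ≤ X) (hθ : θ ∈ MinS k X)
    (hbig : (X : ℝ) ^ (1 - 1 / (80 * (A : ℝ))) ≤ ‖Hs k X θ ξ‖) : False := by
  obtain ⟨hA1, hW⟩ := hW
  have hA1' : (1 : ℝ) ≤ A := by exact_mod_cast hA1
  have hA0 : (0 : ℝ) < A := by linarith
  have hX1 : (1 : ℝ) ≤ X := by exact_mod_cast hX
  have hXp : (0 : ℝ) < X := by linarith
  have hf1 : (1 : ℝ) ≤ k.factorial := by exact_mod_cast Nat.one_le_iff_ne_zero.2 (Nat.factorial_ne_zero k)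
  set δ : ℝ := (X : ℝ) ^ (-(1 / (80 * (A : ℝ)))) with hδ
  have hδ0 : 0 < δ := Real.rpow_pos_of_pos hXp _
  have hδ1 : δ ≤ 1 := Real.rpow_le_one_of_one_le_of_nonpos hX1 (by
    have : 0 < 1 / (80 * (A : ℝ)) := by positivity
    linarith)
  have hδX : δ * X ≤ ‖∑ x ∈ Finset.range X, ee ((PP k θ ξ).eval (((1 : ℤ) : ℝ) + x))‖ := by
    rw [← Hs_eq]
    refine le_trans (le_of_eq ?_) hbig
    rw [hδ]
    conv_lhs => rw [← Real.rpow_one (X : ℝ), ← Real.rpow_mul hXp.le, one_mul, ← Real.rpow_add hXp]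
    congr 1
    ring
  obtain ⟨q, hq1, hq2, hq3⟩ := hW (PP k θ ξ) 1 X X δ (PP_deg k hk θ ξ) hX1 le_rfl hδ0 hδ1 hδX
  have hpow : (1 / δ) ^ A = (X : ℝ) ^ ((1 : ℝ) / 80) := by
    rw [hδ, one_div, ← Real.rpow_neg hXp.le, neg_neg, ← Real.rpow_natCast, ← Real.rpow_mul hXp.le]
    congr 1
    field_simp
  rw [hpow] at hq2 hq3
  rw [PP_coeff k hk] at hq3
  have h40 : (A : ℝ) * k.factorial ≤ (X : ℝ) ^ ((1 : ℝ) / 40) := by
    have h1 := Real.rpow_le_rpow (by positivity) hX0 (by norm_num : (0 : ℝ) ≤ 1 / 40)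
    rw [← Real.rpow_natCast, ← Real.rpow_mul (by positivity)] at h1
    have h2 : ((40 : ℕ) : ℝ) * (1 / 40) = 1 := by norm_num
    rwa [h2, Real.rpow_one] at h1
  have hmul : (X : ℝ) ^ ((1 : ℝ) / 40) * (X : ℝ) ^ ((1 : ℝ) / 80) ≤ (X : ℝ) ^ ((1 : ℝ) / 20) := by
    rw [← Real.rpow_add hXp]
    exact Real.rpow_le_rpow_of_exponent_le hX1 (by norm_num)
  have h80 : 0 < (X : ℝ) ^ ((1 : ℝ) / 80) := Real.rpow_pos_of_pos hXp _
  -- the denominator
  set Q : ℕ := q * k.factorial with hQ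
  have hQ1 : 1 ≤ Q := Nat.one_le_iff_ne_zero.2 (Nat.mul_ne_zero (by omega) (Nat.factorial_ne_zero k))
  have hQ1' : (1 : ℝ) ≤ Q := by exact_mod_cast hQ1
  have hQ0 : (0 : ℝ) < Q := by linarith
  have hQX : (Q : ℝ) ≤ (X : ℝ) ^ ((1 : ℝ) / 20) := by
    have h1 : (Q : ℝ) = q * k.factorial := by rw [hQ]; push_cast; ring
    rw [h1]
    calc (q : ℝ) * k.factorial ≤ (A * (X : ℝ) ^ ((1 : ℝ) / 80)) * k.factorial :=
          mul_le_mul_of_nonneg_right hq2 (by linarith)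
      _ = (A * k.factorial) * (X : ℝ) ^ ((1 : ℝ) / 80) := by ring
      _ ≤ (X : ℝ) ^ ((1 : ℝ) / 40) * (X : ℝ) ^ ((1 : ℝ) / 80) :=
          mul_le_mul_of_nonneg_right h40 h80.le
      _ ≤ _ := hmul
  have hAX : (A : ℝ) * (X : ℝ) ^ ((1 : ℝ) / 80) ≤ (X : ℝ) ^ ((1 : ℝ) / 20) := by
    have h1 : (A : ℝ) ≤ A * k.factorial := le_mul_of_one_le_right hA0.le hf1
    exact (mul_le_mul_of_nonneg_right (h1.trans h40) h80.le).trans hmul
  have hθ' := hθ.2.2 Q hQ1 hQX (round ((Q : ℝ) * θ))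
  have hXk : (0 : ℝ) < (X : ℝ) ^ k := by positivity
  have hd : |θ - (round ((Q : ℝ) * θ) : ℝ) / Q| ≤ (X : ℝ) ^ ((1 : ℝ) / 20) / (X : ℝ) ^ k := by
    have h1 : θ - (round ((Q : ℝ) * θ) : ℝ) / Q = ((Q : ℝ) * θ - round ((Q : ℝ) * θ)) / Q := by
      field_simp
    rw [h1, abs_div, abs_of_pos hQ0]
    have h2 : |(Q : ℝ) * θ - round ((Q : ℝ) * θ)| = dn (q * ((k.factorial : ℝ) * θ)) := by
      unfold dn
      have h3 : (Q : ℝ) * θ = q * ((k.factorial : ℝ) * θ) := by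
        rw [hQ]; push_cast; ring
      rw [h3]
    rw [h2]
    calc dn (q * ((k.factorial : ℝ) * θ)) / Q ≤ dn (q * ((k.factorial : ℝ) * θ)) :=
          div_le_self (abs_nonneg _) hQ1'
      _ ≤ A * (X : ℝ) ^ ((1 : ℝ) / 80) / (X : ℝ) ^ k := hq3
      _ ≤ _ := div_le_div_of_nonneg_right hAX hXk.le
  exact absurd hθ' (not_lt.2 hd)

theorem ks_MIN (hSH : T_SH) : T_MIN := by
  intro k A hk hW
  have hA1 : 1 ≤ A := hW.1
  have hA1' : (1 : ℝ) ≤ A := by exact_mod_cast hA1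
  have hf1 : (1 : ℝ) ≤ k.factorial := by exact_mod_cast Nat.one_le_iff_ne_zero.2 (Nat.factorial_ne_zero k)
  have hc : 1 / (80 * (A : ℝ)) ≤ 1 := by
    rw [div_le_one (by positivity)]
    linarith
  have hc0 : 0 < 1 / (80 * (A : ℝ)) := by positivity
  set X0 : ℝ := ((A : ℝ) * k.factorial) ^ 40 with hX0
  have hX01 : 1 ≤ X0 := one_le_pow₀ (one_le_mul_of_one_le_of_one_le hA1' hf1)
  refine ⟨1 / (80 * (A : ℝ)), 3 * X0, hc0, hc, by positivity, ?_⟩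
  intro X θ ξ hX hθ
  have hX1 : (1 : ℝ) ≤ X := by exact_mod_cast hX
  have hp1 : 1 ≤ (X : ℝ) ^ (1 - 1 / (80 * (A : ℝ))) := Real.one_le_rpow hX1 (by linarith)
  by_cases hcase : X0 ≤ X
  · by_contra hcon
    rw [not_le] at hcon
    have h3 : 3 * (X : ℝ) ^ (1 - 1 / (80 * (A : ℝ))) ≤ 3 * X0 * (X : ℝ) ^ (1 - 1 / (80 * (A : ℝ))) := by
      have h4 : (X : ℝ) ^ (1 - 1 / (80 * (A : ℝ))) ≤ X0 * (X : ℝ) ^ (1 - 1 / (80 * (A : ℝ))) :=
        le_mul_of_one_le_left (by linarith) hX01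
      linarith
    have h1 : ‖Ss k X θ ξ‖ ≤ 1 + ‖Hs k X θ ξ‖ + ‖Hs k X θ (-ξ)‖ := by
      rw [hSH k X θ ξ (by omega)]
      refine (norm_add_le _ _).trans (add_le_add_left ?_ _)
      refine (norm_add_le _ _).trans ?_
      rw [norm_one]
    by_cases h2 : (X : ℝ) ^ (1 - 1 / (80 * (A : ℝ))) ≤ ‖Hs k X θ ξ‖
    · exact key k A hk hW X θ ξ hX hcase hθ h2
    · by_cases h5 : (X : ℝ) ^ (1 - 1 / (80 * (A : ℝ))) ≤ ‖Hs k X θ (-ξ)‖
      · exact key k A hk hW X θ (-ξ) hX hcase hθ h5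
      · rw [not_le] at h2 h5
        linarith
  · rw [not_le] at hcase
    refine (norm_Ss_le k X θ ξ).trans ?_
    have h1 : 3 * (X : ℝ) ≤ 3 * X0 := by linarith
    have h2 : 3 * X0 ≤ 3 * X0 * (X : ℝ) ^ (1 - 1 / (80 * (A : ℝ))) :=
      le_mul_of_one_le_right (by linarith) hp1
    linarith

end Pool.Agent.H3.KS
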